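import Mathlib

/-!
# A weighted inequality for the sets of multiples avoiding three-dimensional projective cubes

A branch and bound certificate: every subset of `{1, ..., 18}` without a three-dimensional projective cube has
weight at most `199` for the weights in `data`.
-/

set_option autoImplicit false

namespace Pool.Agent.Q153.Cube

/-- the entries: element, weight, cubes whose last element (in the order of the list) it is; a cube is given by
its bit mask and its three generators -/
abbrev Entry := ℕ × ℕ × List (ℕ × ℕ × ℕ × ℕ)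

/-- the certificate data -/
def data : List Entry := [
  (2, 38, []),
  (6, 37, []),
  (3, 32, []),
  (4, 29, [(84, 2, 2, 2)]),
  (1, 28, [(14, 1, 1, 1)]),
  (9, 27, [(584, 3, 3, 3)]),
  (8, 18, []),
  (12, 17, [(4368, 4, 4, 4)]),
  (7, 15, [(454, 1, 1, 6), (902, 1, 1, 7), (218, 1, 3, 3)]),
  (5, 13, [(230, 1, 1, 5), (442, 1, 3, 4), (818, 1, 4, 4), (188, 2, 2, 3), (692, 2, 2, 5), (364, 2, 3, 3)]),
  (14, 13, [(21156, 2, 5, 7), (20804, 2, 6, 6)]),
  (10, 12, [(1798, 1, 1, 8), (1650, 1, 4, 5), (21524, 2, 2, 10), (1452, 2, 3, 5), (5284, 2, 5, 5), (1240, 3, 3, 4), (17744, 4, 4, 6), (17968, 4, 5, 5)]),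
  (11, 9, [(3590, 1, 1, 9), (7174, 1, 1, 10), (3170, 1, 5, 5), (6370, 1, 5, 6), (2708, 2, 2, 7), (23084, 2, 3, 9), (2408, 3, 3, 5), (18760, 3, 3, 8), (2456, 3, 4, 4), (19608, 3, 4, 7)]),
  (13, 9, [(14342, 1, 1, 11), (28678, 1, 1, 12), (13850, 1, 3, 9), (27674, 1, 3, 10), (25442, 1, 5, 8), (12482, 1, 6, 6), (25026, 1, 6, 7), (10772, 2, 2, 9), (10724, 2, 5, 6), (9416, 3, 3, 7), (9512, 3, 5, 5), (9008, 4, 4, 5)]),
  (18, 8, [(279824, 4, 4, 10), (287280, 4, 5, 9), (280720, 4, 7, 7), (271648, 5, 5, 8), (266304, 6, 6, 6)]),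
  (16, 7, [(86036, 2, 2, 12), (344084, 2, 2, 14), (92204, 2, 3, 11), (338084, 2, 5, 11), (83268, 2, 6, 8), (82564, 2, 7, 7), (330372, 2, 7, 9), (328964, 2, 8, 8), (74824, 3, 3, 10), (78488, 3, 4, 9), (76072, 3, 5, 8), (72368, 4, 5, 7), (70736, 4, 6, 6), (68704, 5, 5, 6)]),
  (17, 7, [(458758, 1, 1, 16), (221210, 1, 3, 13), (208946, 1, 4, 12), (417842, 1, 4, 13), (199874, 1, 6, 10), (396674, 1, 7, 10), (197378, 1, 8, 8), (395010, 1, 8, 9), (149576, 3, 3, 11), (152360, 3, 5, 9), (148616, 3, 7, 7), (140048, 4, 4, 9), (142544, 4, 6, 7), (136352, 5, 5, 7), (137312, 5, 6, 6)]),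
  (15, 5, [(57350, 1, 1, 13), (114694, 1, 1, 14), (229382, 1, 1, 15), (55322, 1, 3, 11), (110618, 1, 3, 12), (442394, 1, 3, 14), (104498, 1, 4, 11), (100034, 1, 6, 9), (49538, 1, 7, 7), (99202, 1, 7, 8), (43028, 2, 2, 11), (172052, 2, 2, 13), (184364, 2, 3, 12), (368684, 2, 3, 13), (41924, 2, 6, 7), (166724, 2, 6, 9), (165764, 2, 7, 8), (298376, 3, 7, 8), (35216, 4, 4, 7), (33824, 5, 5, 5)])]

/-- branch and bound -/
def search (C : ℕ) : List Entry → ℕ → ℕ → ℕ → Bool
  | [], _, v, _ => Nat.ble v C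
  | e :: l, S, v, rem =>
    Nat.ble (v + rem) C ||
      (search C l S v (rem - e.2.1) &&
        (e.2.2.any (fun c => Nat.beq (Nat.land c.1 (Nat.lor S (2 ^ e.1))) c.1) ||
          search C l (Nat.lor S (2 ^ e.1)) (v + e.2.1) (rem - e.2.1)))

/-- total weight -/
def total : List Entry → ℕ
  | [] => 0
  | e :: l => e.2.1 + total l

/-- the weight of a set -/
def wt (t : ℕ → Bool) : List Entry → ℕ
  | [] => 0
  | e :: l => (if t e.1 then e.2.1 else 0) + wt t l

/-- the mask of a cube has the seven bits -/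
def fullCube (c : ℕ × ℕ × ℕ × ℕ) : Bool :=
  c.1.testBit c.2.1 && c.1.testBit c.2.2.1 && c.1.testBit c.2.2.2 && c.1.testBit (c.2.1 + c.2.2.1) &&
    c.1.testBit (c.2.1 + c.2.2.2) && c.1.testBit (c.2.2.1 + c.2.2.2) &&
    c.1.testBit (c.2.1 + c.2.2.1 + c.2.2.2)

lemma wt_le_total (t : ℕ → Bool) (l : List Entry) : wt t l ≤ total l := by
  induction l with
  | nil => exact le_refl _
  | cons e l ih =>
    unfold wt total
    split_ifs <;> omega

theorem search_sound (C : ℕ) (t : ℕ → Bool) (l : List Entry) :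
    ∀ S v rem : ℕ, (∀ e ∈ l, ∀ c ∈ e.2.2, ¬ ∀ j, c.1.testBit j = true → t j = true) →
      (∀ j, S.testBit j = true → t j = true) → rem = total l → search C l S v rem = true →
      v + wt t l ≤ C := by
  induction l with
  | nil =>
    intro S v rem _ _ _ h
    have : v ≤ C := Nat.le_of_ble_eq_true h
    simpa [wt] using this
  | cons e l ih =>
    intro S v rem hc hS hrem h
    unfold search at h
    rw [Bool.or_eq_true, Bool.and_eq_true, Bool.or_eq_true] at h
    have hrem' : rem - e.2.1 = total l := by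
      have : total (e :: l) = e.2.1 + total l := rfl
      omega
    rcases h with h | ⟨h1, h2⟩
    · have h3 : v + rem ≤ C := Nat.le_of_ble_eq_true h
      have := wt_le_total t (e :: l)
      omega
    · have hc' : ∀ e ∈ l, ∀ c ∈ e.2.2, ¬ ∀ j, c.1.testBit j = true → t j = true :=
        fun e' he' => hc e' (List.mem_cons_of_mem _ he')
      unfold wt
      by_cases hte : t e.1 = true
      · rw [if_pos hte]
        have hS' : ∀ j, (Nat.lor S (2 ^ e.1)).testBit j = true → t j = true := by
          intro j hj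
          have hj' : (S ||| 2 ^ e.1).testBit j = true := hj
          rw [Nat.testBit_or, Bool.or_eq_true] at hj'
          rcases hj' with h4 | h4
          · exact hS j h4
          · rw [Nat.testBit_two_pow] at h4
            have : e.1 = j := by simpa using h4
            rw [← this]
            exact hte
        rcases h2 with h2 | h2
        · exfalso
          rw [List.any_eq_true] at h2
          obtain ⟨c, hcm, hcb⟩ := h2
          apply hc e List.mem_cons_self c hcm
          intro j hj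
          have h5 : Nat.land c.1 (Nat.lor S (2 ^ e.1)) = c.1 := Nat.eq_of_beq_eq_true hcb
          apply hS'
          rw [← h5] at hj
          have hj' : (c.1 &&& (Nat.lor S (2 ^ e.1))).testBit j = true := hj
          rw [Nat.testBit_and, Bool.and_eq_true] at hj'
          exact hj'.2
        · have := ih (Nat.lor S (2 ^ e.1)) (v + e.2.1) (rem - e.2.1) hc' hS' hrem' h2
          omega
      · rw [if_neg hte]
        have := ih S v (rem - e.2.1) hc' hS hrem' h1
        omega

theorem data_full : ∀ e ∈ data, ∀ c ∈ e.2.2, fullCube c = true := by decide +kernel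

theorem data_search : search 199 data 0 0 324 = true := by decide +kernel

theorem data_total : total data = 324 := by decide +kernel

/-- the weighted inequality -/
theorem cert (t : ℕ → Bool)
    (ht : ∀ a b c, ¬ (t a = true ∧ t b = true ∧ t c = true ∧ t (a + b) = true ∧ t (a + c) = true ∧
      t (b + c) = true ∧ t (a + b + c) = true)) : wt t data ≤ 199 := by
  have h := search_sound 199 t data 0 0 324 ?_ ?_ data_total.symm data_search
  · simpa using h
  · intro e he c hc hj
    have h1 := data_full e he c hc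
    unfold fullCube at h1
    simp only [Bool.and_eq_true] at h1
    obtain ⟨⟨⟨⟨⟨⟨h1, h2⟩, h3⟩, h4⟩, h5⟩, h6⟩, h7⟩ := h1
    exact ht c.2.1 c.2.2.1 c.2.2.2 ⟨hj _ h1, hj _ h2, hj _ h3, hj _ h4, hj _ h5, hj _ h6, hj _ h7⟩
  · intro j hj
    simp at hj

end Pool.Agent.Q153.Cube
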