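import Mathlib

/-!
# Sums of periodic functions over initial segments
-/

set_option autoImplicit false

namespace Pool.Agent.Q153.Cube

open Finset

/-- `F` has period `M` -/
def Per (M : ℕ) (F : ℕ → ℕ) : Prop := ∀ x, F (x + M) = F x

lemma Per.mul {M : ℕ} {F : ℕ → ℕ} (h : Per M F) (x k : ℕ) : F (x + k * M) = F x := by
  induction k with
  | zero => simp
  | succ k ih =>
    have : x + (k + 1) * M = x + k * M + M := by ring
    rw [this, h, ih]

lemma Per.mod {M : ℕ} {F : ℕ → ℕ} (h : Per M F) (x : ℕ) : F (x % M) = F x := by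
  have h1 := h.mul (x % M) (x / M)
  rw [mul_comm, Nat.mod_add_div] at h1
  exact h1.symm

lemma Per.eq_of_modEq {M : ℕ} {F : ℕ → ℕ} (h : Per M F) {x y : ℕ} (hxy : x % M = y % M) : F x = F y := by
  rw [← h.mod x, ← h.mod y, hxy]

lemma sum_zmod {M : ℕ} [NeZero M] (F : ℕ → ℕ) : ∑ x ∈ range M, F x = ∑ z : ZMod M, F z.val := by
  symm
  apply Finset.sum_bij' (fun (z : ZMod M) _ => z.val) (fun (x : ℕ) _ => (x : ZMod M))
  · intro z _
    exact Finset.mem_range.2 (ZMod.val_lt z)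
  · intro x _
    exact Finset.mem_univ _
  · intro z _
    exact ZMod.natCast_zmod_val z
  · intro x hx
    exact ZMod.val_cast_of_lt (Finset.mem_range.1 hx)
  · intro z _
    rfl

lemma sum_shift {M : ℕ} (hM : 0 < M) {F : ℕ → ℕ} (h : Per M F) (s : ℕ) :
    ∑ x ∈ range M, F (x + s) = ∑ x ∈ range M, F x := by
  have : NeZero M := ⟨hM.ne'⟩
  rw [sum_zmod (fun x => F (x + s)), sum_zmod F]
  rw [← Equiv.sum_comp (Equiv.addRight (s : ZMod M)) (fun z : ZMod M => F z.val)]
  apply Finset.sum_congr rfl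
  intro z _
  apply h.eq_of_modEq
  simp only [Equiv.coe_addRight]
  rw [ZMod.val_add, ZMod.val_natCast]
  simp

lemma sum_mul {M : ℕ} (hM : 0 < M) {F : ℕ → ℕ} (h : Per M F) {j : ℕ} (hj : Nat.Coprime j M) :
    ∑ x ∈ range M, F (j * x) = ∑ x ∈ range M, F x := by
  have : NeZero M := ⟨hM.ne'⟩
  rw [sum_zmod (fun x => F (j * x)), sum_zmod F]
  rw [← Equiv.sum_comp (Units.mulLeft (ZMod.unitOfCoprime j hj)) (fun z : ZMod M => F z.val)]
  apply Finset.sum_congr rfl
  intro z _
  apply h.eq_of_modEq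
  simp only [Units.mulLeft_apply, ZMod.coe_unitOfCoprime]
  rw [ZMod.val_mul, ZMod.val_natCast]
  simp [Nat.mul_mod]

lemma sum_affine {M : ℕ} (hM : 0 < M) {F : ℕ → ℕ} (h : Per M F) {j : ℕ} (hj : Nat.Coprime j M) (s : ℕ) :
    ∑ x ∈ range M, F (j * x + s) = ∑ x ∈ range M, F x := by
  have h1 : Per M (fun x => F (x + s)) := by
    intro x
    simp only
    rw [add_right_comm]
    exact h _
  rw [sum_mul hM h1 hj, sum_shift hM h s]

lemma sum_double {M : ℕ} {F : ℕ → ℕ} (h : Per M F) :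
    ∑ x ∈ range (2 * M), F x = 2 * ∑ x ∈ range M, F x := by
  rw [two_mul, Finset.sum_range_add, two_mul]
  congr 1
  apply Finset.sum_congr rfl
  intro x _
  rw [add_comm]
  exact h x

lemma sum_parity (M : ℕ) (F : ℕ → ℕ) :
    ∑ x ∈ range (2 * M), F x = ∑ y ∈ range M, F (2 * y) + ∑ y ∈ range M, F (2 * y + 1) := by
  induction M with
  | zero => simp
  | succ M ih =>
    rw [Finset.sum_range_succ, Finset.sum_range_succ]
    have : 2 * (M + 1) = 2 * M + 1 + 1 := by ring
    rw [this, Finset.sum_range_succ, Finset.sum_range_succ, ih]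
    ring

end Pool.Agent.Q153.Cube
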