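import Mathlib
import Pool.Agent.Q153.Cube.Cert
import Pool.Agent.Q153.Cube.Count

/-!
# Sets of integers of period `2 ^ n` without three-dimensional projective cubes have density at most `5 / 8`
-/

set_option autoImplicit false

namespace Pool.Agent.Q153.Cube

open Finset

/-- indicator -/
noncomputable def ind (p : Prop) : ℕ := by
  classical exact if p then 1 else 0

lemma ind_true {p : Prop} (h : p) : ind p = 1 := by unfold ind; simp [h]
lemma ind_false {p : Prop} (h : ¬ p) : ind p = 0 := by unfold ind; simp [h]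
lemma ind_le (p : Prop) : ind p ≤ 1 := by
  by_cases h : p
  · rw [ind_true h]
  · rw [ind_false h]; omega

/-- no three-dimensional projective cube -/
def CF (P : ℕ → Prop) : Prop :=
  ∀ a b c, ¬ (P a ∧ P b ∧ P c ∧ P (a + b) ∧ P (a + c) ∧ P (b + c) ∧ P (a + b + c))

/-- period -/
def PP (M : ℕ) (P : ℕ → Prop) : Prop := ∀ x, P (x + M) ↔ P x

/-- the number of `x < M` with `P x` -/
noncomputable def cnt (M : ℕ) (P : ℕ → Prop) : ℕ := ∑ x ∈ range M, ind (P x)

lemma PP.per {M : ℕ} {P : ℕ → Prop} (h : PP M P) : Per M (fun x => ind (P x)) := by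
  intro x
  simp only
  rw [h x]

lemma CF.dil {P : ℕ → Prop} (h : CF P) (k : ℕ) : CF (fun x => P (k * x)) := by
  intro a b c hc
  apply h (k * a) (k * b) (k * c)
  simpa [mul_add] using hc

lemma PP.two {N : ℕ} {P : ℕ → Prop} (h : PP (2 * N) P) (i : ℕ) : PP N (fun x => P (2 ^ (i + 1) * x)) := by
  intro x
  simp only
  have h1 : ∀ k y, P (y + k * (2 * N)) ↔ P y := by
    intro k
    induction k with
    | zero => intro y; simp
    | succ k ih =>
      intro y
      have : y + (k + 1) * (2 * N) = (y + k * (2 * N)) + 2 * N := by ring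
      rw [this, h, ih]
  have h2 : 2 ^ (i + 1) * (x + N) = 2 ^ (i + 1) * x + 2 ^ i * (2 * N) := by ring
  rw [h2, h1]

lemma PP.odd {N : ℕ} {P : ℕ → Prop} (h : PP (2 * N) P) (i : ℕ) :
    Per N (fun y => ind (P (2 ^ i * (2 * y + 1)))) := by
  intro y
  simp only
  have h1 : ∀ k y, P (y + k * (2 * N)) ↔ P y := by
    intro k
    induction k with
    | zero => intro y; simp
    | succ k ih =>
      intro y
      have : y + (k + 1) * (2 * N) = (y + k * (2 * N)) + 2 * N := by ring
      rw [this, h, ih]
  have h2 : 2 ^ i * (2 * (y + N) + 1) = 2 ^ i * (2 * y + 1) + 2 ^ i * (2 * N) := by ring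
  rw [h2, h1]

/-- the number of odd `x < 2 N` with `P (2 ^ i x)` -/
noncomputable def ff (N : ℕ) (P : ℕ → Prop) (i : ℕ) : ℕ := ∑ y ∈ range N, ind (P (2 ^ i * (2 * y + 1)))

/-- the number of `x < 2 N` with `P (2 ^ i x)` -/
noncomputable def gg (N : ℕ) (P : ℕ → Prop) (i : ℕ) : ℕ := ∑ x ∈ range (2 * N), ind (P (2 ^ i * x))

lemma gg_rec {N : ℕ} {P : ℕ → Prop} (h : PP (2 * N) P) (i : ℕ) :
    2 * gg N P i = gg N P (i + 1) + 2 * ff N P i := by
  unfold gg ff
  rw [sum_parity N (fun x => ind (P (2 ^ i * x))), sum_double (h.two i).per, mul_add]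
  congr 2
  apply Finset.sum_congr rfl
  intro y _
  have : 2 ^ i * (2 * y) = 2 ^ (i + 1) * y := by ring
  rw [this]

/-- odd multiples -/
lemma odd_mul {m : ℕ} {P : ℕ → Prop} (h : PP (2 * 2 ^ m) P) (i q : ℕ) :
    ∑ y ∈ range (2 ^ m), ind (P (2 ^ i * (2 * q + 1) * (2 * y + 1))) = ff (2 ^ m) P i := by
  have hco : Nat.Coprime (2 * q + 1) (2 ^ m) := by
    apply Nat.Coprime.pow_right
    rw [Nat.coprime_two_right]
    exact ⟨q, rfl⟩
  have h1 := sum_affine (by positivity) (h.odd i) hco q
  unfold ff
  rw [← h1]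
  apply Finset.sum_congr rfl
  intro y _
  have : 2 ^ i * (2 * q + 1) * (2 * y + 1) = 2 ^ i * (2 * ((2 * q + 1) * y + q) + 1) := by ring
  rw [this]

/-- shifts of the odd part by even numbers -/
lemma odd_shift {N : ℕ} (hN : 0 < N) {P : ℕ → Prop} (h : PP (2 * N) P) (s : ℕ) :
    ∑ y ∈ range N, ind (P (2 * y + 1 + 2 * s)) = ff N P 0 := by
  have h1 := sum_shift hN (h.odd 0) s
  unfold ff
  rw [← h1]
  apply Finset.sum_congr rfl
  intro y _
  have : 2 * y + 1 + 2 * s = 2 ^ 0 * (2 * (y + s) + 1) := by ring
  rw [this]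

/-- the weighted inequality summed over all odd `x` -/
lemma cert_sum {m : ℕ} {P : ℕ → Prop} (h : PP (2 * 2 ^ m) P) (hP : CF P) :
    145 * ff (2 ^ m) P 0 + 108 * ff (2 ^ m) P 1 + 46 * ff (2 ^ m) P 2 + 18 * ff (2 ^ m) P 3 +
      7 * ff (2 ^ m) P 4 ≤ 199 * 2 ^ m := by
  classical
  have h1 : ∀ y : ℕ, wt (fun j => decide (P (j * (2 * y + 1)))) data ≤ 199 := by
    intro y
    apply cert
    intro a b c hc
    apply hP (a * (2 * y + 1)) (b * (2 * y + 1)) (c * (2 * y + 1))
    simpa [add_mul] using hc
  have h2 : ∀ y : ℕ, wt (fun j => decide (P (j * (2 * y + 1)))) data =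
      38 * ind (P (2 * (2 * y + 1))) + 37 * ind (P (6 * (2 * y + 1))) + 32 * ind (P (3 * (2 * y + 1))) +
      29 * ind (P (4 * (2 * y + 1))) + 28 * ind (P (1 * (2 * y + 1))) + 27 * ind (P (9 * (2 * y + 1))) +
      18 * ind (P (8 * (2 * y + 1))) + 17 * ind (P (12 * (2 * y + 1))) + 15 * ind (P (7 * (2 * y + 1))) +
      13 * ind (P (5 * (2 * y + 1))) + 13 * ind (P (14 * (2 * y + 1))) + 12 * ind (P (10 * (2 * y + 1))) +
      9 * ind (P (11 * (2 * y + 1))) + 9 * ind (P (13 * (2 * y + 1))) + 8 * ind (P (18 * (2 * y + 1))) +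
      7 * ind (P (16 * (2 * y + 1))) + 7 * ind (P (17 * (2 * y + 1))) + 5 * ind (P (15 * (2 * y + 1))) := by
    intro y
    have h3 : ∀ (j w : ℕ), (if decide (P (j * (2 * y + 1))) = true then w else 0) =
        w * ind (P (j * (2 * y + 1))) := by
      intro j w
      by_cases hp : P (j * (2 * y + 1))
      · rw [ind_true hp]; simp [hp]
      · rw [ind_false hp]; simp [hp]
    unfold data
    simp only [wt, h3]
    ring
  have h4 : ∑ y ∈ range (2 ^ m), wt (fun j => decide (P (j * (2 * y + 1)))) data ≤ 199 * 2 ^ m := by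
    calc _ ≤ ∑ y ∈ range (2 ^ m), 199 := Finset.sum_le_sum (fun y _ => h1 y)
      _ = 199 * 2 ^ m := by rw [Finset.sum_const, card_range, smul_eq_mul, mul_comm]
  simp_rw [h2] at h4
  simp only [Finset.sum_add_distrib, ← Finset.mul_sum] at h4
  have e := fun i q => odd_mul h i q
  have e1 := e 0 0
  have e3 := e 0 1
  have e5 := e 0 2
  have e7 := e 0 3
  have e9 := e 0 4
  have e11 := e 0 5
  have e13 := e 0 6
  have e15 := e 0 7
  have e17 := e 0 8
  have e2 := e 1 0
  have e6 := e 1 1
  have e10 := e 1 2
  have e14 := e 1 3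
  have e18 := e 1 4
  have e4 := e 2 0
  have e12 := e 2 1
  have e8 := e 3 0
  have e16 := e 4 0
  norm_num at e1 e2 e3 e4 e5 e6 e7 e8 e9 e10 e11 e12 e13 e14 e15 e16 e17 e18
  norm_num at h4
  rw [e1, e2, e3, e4, e5, e6, e7, e8, e9, e10, e11, e12, e13, e14, e15, e16, e17, e18] at h4
  linarith

/-- `P x`, `P (2 x)`, `P (3 x)` for odd `x` -/
lemma one_two_three {m : ℕ} {P : ℕ → Prop} (h : PP (2 * 2 ^ m) P) (hP : CF P) :
    2 * ff (2 ^ m) P 0 + ff (2 ^ m) P 1 ≤ 2 * 2 ^ m := by
  have h1 : ∀ y : ℕ, ind (P (2 ^ 0 * (2 * 0 + 1) * (2 * y + 1))) + ind (P (2 ^ 0 * (2 * 1 + 1) * (2 * y + 1))) +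
      ind (P (2 ^ 1 * (2 * 0 + 1) * (2 * y + 1))) ≤ 2 := by
    intro y
    by_cases a1 : P (2 ^ 0 * (2 * 0 + 1) * (2 * y + 1))
    · by_cases a2 : P (2 ^ 0 * (2 * 1 + 1) * (2 * y + 1))
      · by_cases a3 : P (2 ^ 1 * (2 * 0 + 1) * (2 * y + 1))
        · exfalso
          apply hP (2 * y + 1) (2 * y + 1) (2 * y + 1)
          have e1 : 2 ^ 0 * (2 * 0 + 1) * (2 * y + 1) = 2 * y + 1 := by ring
          have e2 : 2 ^ 0 * (2 * 1 + 1) * (2 * y + 1) = 2 * y + 1 + (2 * y + 1) + (2 * y + 1) := by ring
          have e3 : 2 ^ 1 * (2 * 0 + 1) * (2 * y + 1) = 2 * y + 1 + (2 * y + 1) := by ring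
          rw [e1] at a1
          rw [e2] at a2
          rw [e3] at a3
          exact ⟨a1, a1, a1, a3, a3, a3, a2⟩
        · rw [ind_false a3]
          have := ind_le (P (2 ^ 0 * (2 * 0 + 1) * (2 * y + 1)))
          have := ind_le (P (2 ^ 0 * (2 * 1 + 1) * (2 * y + 1)))
          omega
      · rw [ind_false a2]
        have := ind_le (P (2 ^ 0 * (2 * 0 + 1) * (2 * y + 1)))
        have := ind_le (P (2 ^ 1 * (2 * 0 + 1) * (2 * y + 1)))
        omega
    · rw [ind_false a1]
      have := ind_le (P (2 ^ 0 * (2 * 1 + 1) * (2 * y + 1)))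
      have := ind_le (P (2 ^ 1 * (2 * 0 + 1) * (2 * y + 1)))
      omega
  have h2 := Finset.sum_le_sum (fun y (_ : y ∈ range (2 ^ m)) => h1 y)
  rw [Finset.sum_add_distrib, Finset.sum_add_distrib, odd_mul h 0 0, odd_mul h 0 1, odd_mul h 1 0,
    Finset.sum_const, card_range, smul_eq_mul] at h2
  linarith

/-- if `3 f_0 > 2 N` then no even `b` has `P b` and `P (2 b)` -/
lemma no_double {m : ℕ} {P : ℕ → Prop} (h : PP (2 * 2 ^ m) P) (hP : CF P)
    (hf : 2 * 2 ^ m < 3 * ff (2 ^ m) P 0) (z : ℕ) : ¬ (P (2 * z) ∧ P (4 * z)) := by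
  rintro ⟨h1, h2⟩
  have h3 : ∀ y : ℕ, ind (P (2 * y + 1 + 2 * 0)) + ind (P (2 * y + 1 + 2 * z)) +
      ind (P (2 * y + 1 + 2 * (2 * z))) ≤ 2 := by
    intro y
    by_cases a1 : P (2 * y + 1 + 2 * 0)
    · by_cases a2 : P (2 * y + 1 + 2 * z)
      · by_cases a3 : P (2 * y + 1 + 2 * (2 * z))
        · exfalso
          apply hP (2 * z) (2 * z) (2 * y + 1)
          have e2 : 2 * z + 2 * z = 4 * z := by ring
          have e3 : 2 * z + (2 * y + 1) = 2 * y + 1 + 2 * z := by ring
          have e4 : 4 * z + (2 * y + 1) = 2 * y + 1 + 2 * (2 * z) := by ring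
          rw [e2, e3, e4]
          exact ⟨h1, h1, a1, h2, a2, a2, a3⟩
        · rw [ind_false a3]
          have := ind_le (P (2 * y + 1 + 2 * 0))
          have := ind_le (P (2 * y + 1 + 2 * z))
          omega
      · rw [ind_false a2]
        have := ind_le (P (2 * y + 1 + 2 * 0))
        have := ind_le (P (2 * y + 1 + 2 * (2 * z)))
        omega
    · rw [ind_false a1]
      have := ind_le (P (2 * y + 1 + 2 * z))
      have := ind_le (P (2 * y + 1 + 2 * (2 * z)))
      omega
  have h4 := Finset.sum_le_sum (fun y (_ : y ∈ range (2 ^ m)) => h3 y)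
  rw [Finset.sum_add_distrib, Finset.sum_add_distrib, odd_shift (by positivity) h,
    odd_shift (by positivity) h, odd_shift (by positivity) h,
    Finset.sum_const, card_range, smul_eq_mul] at h4
  linarith

/-- if `4 f_0 > 3 N` then the multiples of `4` in the set are sum-free -/
lemma sum_free {m : ℕ} {P : ℕ → Prop} (h : PP (2 * 2 ^ m) P) (hP : CF P)
    (hf : 3 * 2 ^ m < 4 * ff (2 ^ m) P 0) (z w : ℕ) : ¬ (P (4 * z) ∧ P (4 * w) ∧ P (4 * (z + w))) := by
  rintro ⟨h1, h2, h0⟩
  have h3 : ∀ y : ℕ, ind (P (2 * y + 1 + 2 * 0)) + ind (P (2 * y + 1 + 2 * (2 * z))) +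
      ind (P (2 * y + 1 + 2 * (2 * w))) + ind (P (2 * y + 1 + 2 * (2 * z + 2 * w))) ≤ 3 := by
    intro y
    have i1 := ind_le (P (2 * y + 1 + 2 * 0))
    have i2 := ind_le (P (2 * y + 1 + 2 * (2 * z)))
    have i3 := ind_le (P (2 * y + 1 + 2 * (2 * w)))
    have i4 := ind_le (P (2 * y + 1 + 2 * (2 * z + 2 * w)))
    by_cases a1 : P (2 * y + 1 + 2 * 0)
    · by_cases a2 : P (2 * y + 1 + 2 * (2 * z))
      · by_cases a3 : P (2 * y + 1 + 2 * (2 * w))
        · by_cases a4 : P (2 * y + 1 + 2 * (2 * z + 2 * w))
          · exfalso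
            apply hP (4 * z) (4 * w) (2 * y + 1)
            have e1 : 4 * z + 4 * w = 4 * (z + w) := by ring
            have e2 : 4 * z + (2 * y + 1) = 2 * y + 1 + 2 * (2 * z) := by ring
            have e3 : 4 * w + (2 * y + 1) = 2 * y + 1 + 2 * (2 * w) := by ring
            have e4 : 4 * (z + w) + (2 * y + 1) = 2 * y + 1 + 2 * (2 * z + 2 * w) := by ring
            rw [e1, e2, e3, e4]
            exact ⟨h1, h2, a1, h0, a2, a3, a4⟩
          · rw [ind_false a4]; omega
        · rw [ind_false a3]; omega
      · rw [ind_false a2]; omega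
    · rw [ind_false a1]; omega
  have h4 := Finset.sum_le_sum (fun y (_ : y ∈ range (2 ^ m)) => h3 y)
  rw [Finset.sum_add_distrib, Finset.sum_add_distrib, Finset.sum_add_distrib, odd_shift (by positivity) h,
    odd_shift (by positivity) h, odd_shift (by positivity) h, odd_shift (by positivity) h,
    Finset.sum_const, card_range, smul_eq_mul] at h4
  linarith

/-- the main theorem -/
theorem main_bound : ∀ (n : ℕ) (P : ℕ → Prop), PP (2 ^ n) P → CF P → 8 * cnt (2 ^ n) P ≤ 5 * 2 ^ n := by
  intro n
  induction n with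
  | zero =>
    intro P _ hP
    have h0 : ¬ P 0 := fun h => hP 0 0 0 (by simpa using h)
    unfold cnt
    simp [ind_false h0]
  | succ m ih =>
    intro P hper hP
    have h : PP (2 * 2 ^ m) P := by rwa [pow_succ, mul_comm] at hper
    have hp0 : ¬ P 0 := fun h => hP 0 0 0 (by simpa using h)
    -- induction hypothesis for the dilates
    have hg : ∀ i, 4 * gg (2 ^ m) P (i + 1) ≤ 5 * 2 ^ m := by
      intro i
      have h1 := ih (fun x => P (2 ^ (i + 1) * x)) (h.two i) (hP.dil _)
      have h2 : gg (2 ^ m) P (i + 1) = 2 * cnt (2 ^ m) (fun x => P (2 ^ (i + 1) * x)) := by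
        unfold gg cnt
        exact sum_double (h.two i).per
      rw [h2]
      linarith
    have hrec := fun i => gg_rec h i
    have h123 := one_two_three h hP
    have hgoal : cnt (2 ^ (m + 1)) P = gg (2 ^ m) P 0 := by
      unfold cnt gg
      rw [pow_succ, mul_comm]
      simp
    rw [hgoal]
    have hpow : 5 * 2 ^ (m + 1) = 10 * 2 ^ m := by ring
    rw [hpow]
    suffices hs : 4 * gg (2 ^ m) P 0 ≤ 5 * 2 ^ m by linarith
    rcases le_or_gt (8 * ff (2 ^ m) P 0) (5 * 2 ^ m) with c1 | c1
    · have := hrec 0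
      have := hg 0
      simp only [zero_add] at *
      linarith
    · rcases le_or_gt (3 * ff (2 ^ m) P 0) (2 * 2 ^ m) with c2 | c2
      · have hc := cert_sum h hP
        have r0 := hrec 0
        have r1 := hrec 1
        have r2 := hrec 2
        have r3 := hrec 3
        have r4 := hrec 4
        have g1 := hg 0
        have g2 := hg 1
        have g3 := hg 2
        have g4 := hg 3
        have g5 := hg 4
        norm_num at r0 r1 r2 r3 r4 g1 g2 g3 g4 g5
        linarith
      · rcases le_or_gt (4 * ff (2 ^ m) P 0) (3 * 2 ^ m) with c3 | c3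
        · -- no doubles
          have hnd := no_double h hP c2
          have hff : ∀ i, ff (2 ^ m) P (i + 1) + ff (2 ^ m) P (i + 2) ≤ 2 ^ m := by
            intro i
            unfold ff
            rw [← Finset.sum_add_distrib]
            calc _ ≤ ∑ y ∈ range (2 ^ m), 1 := by
                  apply Finset.sum_le_sum
                  intro y _
                  have e1 : 2 ^ (i + 1) * (2 * y + 1) = 2 * (2 ^ i * (2 * y + 1)) := by ring
                  have e2 : 2 ^ (i + 2) * (2 * y + 1) = 4 * (2 ^ i * (2 * y + 1)) := by ring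
                  rw [e1, e2]
                  have h1 := hnd (2 ^ i * (2 * y + 1))
                  have i1 := ind_le (P (2 * (2 ^ i * (2 * y + 1))))
                  have i2 := ind_le (P (4 * (2 ^ i * (2 * y + 1))))
                  by_cases a1 : P (2 * (2 ^ i * (2 * y + 1)))
                  · have a2 : ¬ P (4 * (2 ^ i * (2 * y + 1))) := fun a2 => h1 ⟨a1, a2⟩
                    rw [ind_false a2]; omega
                  · rw [ind_false a1]; omega
              _ = 2 ^ m := by simp
          have hzero : ∀ i, m + 1 ≤ i → gg (2 ^ m) P i = 0 := by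
            intro i hi
            unfold gg
            apply Finset.sum_eq_zero
            intro x _
            apply ind_false
            intro hx
            apply hp0
            obtain ⟨j, rfl⟩ : ∃ j, i = m + 1 + j := ⟨i - (m + 1), by omega⟩
            have h1 : ∀ k y, P (y + k * (2 * 2 ^ m)) ↔ P y := by
              intro k
              induction k with
              | zero => intro y; simp
              | succ k ih =>
                intro y
                have : y + (k + 1) * (2 * 2 ^ m) = (y + k * (2 * 2 ^ m)) + 2 * 2 ^ m := by ring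
                rw [this, h, ih]
            have h2 : 2 ^ (m + 1 + j) * x = 0 + (2 ^ j * x) * (2 * 2 ^ m) := by ring
            rw [h2, h1] at hx
            exact hx
          have hdown : ∀ k i, i + k = m + 1 → 3 * gg (2 ^ m) P (i + 1) ≤ 2 * (2 ^ m + ff (2 ^ m) P (i + 1)) := by
            intro k
            induction k with
            | zero =>
              intro i hi
              rw [hzero (i + 1) (by omega)]
              omega
            | succ k ihk =>
              intro i hi
              have h1 := ihk (i + 1) (by omega)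
              have h2 := hrec (i + 1)
              have h3 := hff i
              have e : i + 1 + 1 = i + 2 := rfl
              rw [e] at h1 h2
              omega
          have h1 := hdown (m + 1) 0 (by omega)
          have h2 := hrec 0
          simp only [zero_add] at h1 h2
          linarith
        · -- sum-free case
          have hsf := sum_free h hP c3
          have hg2 : gg (2 ^ m) P 2 ≤ 2 ^ m := by
            by_cases hex : ∃ w, P (4 * w)
            · obtain ⟨w, hw⟩ := hex
              have h1 : ∀ x : ℕ, ind (P (2 ^ 2 * x)) + ind (P (2 ^ 2 * (x + w))) ≤ 1 := by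
                intro x
                have e : (2 : ℕ) ^ 2 = 4 := by norm_num
                rw [e]
                have h2 := hsf x w
                have i1 := ind_le (P (4 * x))
                have i2 := ind_le (P (4 * (x + w)))
                by_cases a1 : P (4 * x)
                · have a2 : ¬ P (4 * (x + w)) := fun a2 => h2 ⟨a1, hw, a2⟩
                  rw [ind_false a2]; omega
                · rw [ind_false a1]; omega
              have h2 := Finset.sum_le_sum (fun x (_ : x ∈ range (2 * 2 ^ m)) => h1 x)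
              have hper2 : Per (2 * 2 ^ m) (fun x => ind (P (2 ^ 2 * x))) := by
                intro x
                have h3 : Per (2 ^ m) (fun x => ind (P (2 ^ 2 * x))) := (h.two 1).per
                simp only
                have h4 := h3.mul x 2
                simpa using h4
              rw [Finset.sum_add_distrib, sum_shift (by positivity) hper2 w, Finset.sum_const, card_range,
                smul_eq_mul] at h2
              unfold gg
              linarith
            · push Not at hex
              have : gg (2 ^ m) P 2 = 0 := by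
                unfold gg
                apply Finset.sum_eq_zero
                intro x _
                apply ind_false
                have e : (2 : ℕ) ^ 2 = 4 := by norm_num
                rw [e]
                exact hex x
              rw [this]
              omega
          have r0 := hrec 0
          have r1 := hrec 1
          norm_num at r0 r1
          linarith

end Pool.Agent.Q153.Cube
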